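import Mathlib
import Pool.Agent.H993.CT.Defs

/-!
# Lumping of translation invariant kernels (project CT of helper993, task 2)
-/

namespace Pool.Agent.H788.CT

open Filter Topology NormedSpace Matrix
open Pool.Agent.H993.TR
open Pool.Agent.H993.CT

section gen

variable {W : Type} [DecidableEq W]

/-- The kernel plus `c` times the identity. -/
def kc (A : W → W → ℝ) (c : ℝ) (u v : W) : ℝ := A u v + if u = v then c else 0

/-- The powers of the kernel restricted to `S`. -/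
def pw (A : W → W → ℝ) (c : ℝ) (S : Finset W) : ℕ → W → W → ℝ
  | 0, u, v => if u = v then 1 else 0
  | n + 1, u, v => ∑ w ∈ S, kc A c u w * pw A c S n w v

theorem one_ent (S : Finset W) (u v : S) :
    (1 : Matrix S S ℝ) u v = if (u : W) = (v : W) then 1 else 0 := by
  rw [Matrix.one_apply]
  by_cases h : u = v
  · rw [if_pos h, if_pos (congrArg Subtype.val h)]
  · rw [if_neg h, if_neg fun h' => h (Subtype.ext h')]

theorem pow_pw (A : W → W → ℝ) (c : ℝ) (S : Finset W) (n : ℕ) (u v : S) :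
    ((H993.TR.mt A S + c • (1 : Matrix S S ℝ)) ^ n) u v = pw A c S n u v := by
  induction n generalizing u with
  | zero =>
    rw [pow_zero, one_ent]
    rfl
  | succ n ih =>
    rw [pow_succ', Matrix.mul_apply]
    show _ = ∑ w ∈ S, kc A c u w * pw A c S n w v
    rw [← Finset.sum_coe_sort S]
    refine Finset.sum_congr rfl fun w _ => ?_
    rw [ih]
    congr 1
    rw [Matrix.add_apply, Matrix.smul_apply, one_ent, smul_eq_mul, mul_ite, mul_one, mul_zero]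
    rfl

theorem EE_hasSum (A : W → W → ℝ) (c : ℝ) (S : Finset W) {u v : W} (hu : u ∈ S) (hv : v ∈ S) :
    HasSum (fun n : ℕ => ((n.factorial : ℝ)⁻¹) * pw A c S n u v) (Real.exp c * EE A S u v) := by
  have h := mat_exp_entry (H993.TR.mt A S + c • (1 : Matrix S S ℝ)) ⟨u, hu⟩ ⟨v, hv⟩
  rw [exp_add_smul_one, Matrix.smul_apply, smul_eq_mul] at h
  have h2 := EE_eq A S ⟨u, hu⟩ ⟨v, hv⟩
  simp only at h2
  rw [← h2] at h
  simpa only [pow_pw] using h

theorem kc_nn {A : W → W → ℝ} (hA : Adm A) {c : ℝ} {S : Finset W} (hc : ∀ u ∈ S, 0 ≤ A u u + c)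
    {u v : W} (hu : u ∈ S) : 0 ≤ kc A c u v := by
  unfold kc
  by_cases h : u = v
  · subst h
    rw [if_pos rfl]
    exact hc u hu
  · rw [if_neg h, add_zero]
    exact hA.off u v h

theorem pw_nn {A : W → W → ℝ} (hA : Adm A) {c : ℝ} {S : Finset W} (hc : ∀ u ∈ S, 0 ≤ A u u + c)
    (n : ℕ) {u : W} (hu : u ∈ S) (v : W) : 0 ≤ pw A c S n u v := by
  induction n generalizing u with
  | zero =>
    show 0 ≤ if u = v then (1 : ℝ) else 0
    split_ifs <;> norm_num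
  | succ n ih =>
    show 0 ≤ ∑ w ∈ S, kc A c u w * pw A c S n w v
    exact Finset.sum_nonneg fun w hw => mul_nonneg (kc_nn hA hc hu) (ih hw)

end gen

section lump

variable {Ω : Type} [DecidableEq Ω] {I : Type} [Fintype I] [DecidableEq I]

theorem mem_bx {M : ℕ} {k : I → ℤ} : k ∈ bx I M ↔ ∀ i, -(M : ℤ) ≤ k i ∧ k i ≤ M := by
  simp [bx, Fintype.mem_piFinset]

theorem zero_mem_bx (M : ℕ) : (0 : I → ℤ) ∈ bx I M := by simp [mem_bx]

variable {B : Ω × (I → ℤ) → Ω × (I → ℤ) → ℝ} {B' : Ω → Ω → ℝ} {ρ : ℕ}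

theorem kc_shift (h : Lump B B' ρ) (c : ℝ) (a b : Ω) (k l : I → ℤ) :
    kc B c (a, k) (b, l) = kc B c (a, 0) (b, l - k) := by
  unfold kc
  have h1 := h.inv a b 0 (l - k) k
  rw [zero_add, sub_add_cancel] at h1
  rw [h1]
  congr 1
  by_cases h2 : (a, k) = (b, l)
  · rw [if_pos h2, if_pos]
    rw [Prod.mk.injEq] at h2 ⊢
    exact ⟨h2.1, by rw [h2.2, sub_self]⟩
  · rw [if_neg h2, if_neg]
    intro h3
    apply h2
    rw [Prod.mk.injEq] at h3 ⊢
    exact ⟨h3.1, (sub_eq_zero.1 h3.2.symm).symm⟩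

theorem kc_range (h : Lump B B' ρ) {c : ℝ} {a b : Ω} {l : I → ℤ} (hl : kc B c (a, 0) (b, l) ≠ 0) :
    l ∈ bx I ρ := by
  unfold kc at hl
  by_cases h2 : (a, (0 : I → ℤ)) = (b, l)
  · rw [Prod.mk.injEq] at h2
    rw [← h2.2]
    exact zero_mem_bx ρ
  · rw [if_neg h2, add_zero] at hl
    have := h.range a b 0 l hl
    rwa [sub_zero] at this

theorem kc_sum (h : Lump B B' ρ) (c : ℝ) (a b : Ω) :
    ∑ l ∈ bx I ρ, kc B c (a, 0) (b, l) = kc B' c a b := by
  unfold kc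
  rw [Finset.sum_add_distrib, h.sum]
  congr 1
  by_cases h1 : a = b
  · subst h1
    rw [if_pos rfl]
    simp only [Prod.mk.injEq, true_and]
    rw [Finset.sum_ite_eq, if_pos (zero_mem_bx ρ)]
  · rw [if_neg h1]
    refine Finset.sum_eq_zero fun l _ => if_neg fun h2 => h1 ?_
    rw [Prod.mk.injEq] at h2
    exact h2.1

/-- the diagonal is translation invariant -/
theorem diagB (h : Lump B B' ρ) (a : Ω) (k : I → ℤ) : B (a, k) (a, k) = B (a, 0) (a, 0) := by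
  have h1 := h.inv a a 0 0 k
  rwa [zero_add] at h1

theorem hcS (h : Lump B B' ρ) {R : Finset Ω} {c : ℝ} (hc : ∀ a ∈ R, 0 ≤ B (a, 0) (a, 0) + c) (M : ℕ) :
    ∀ u ∈ R ×ˢ bx I M, 0 ≤ B u u + c := by
  rintro ⟨a, k⟩ hu
  rw [diagB h]
  exact hc a (Finset.mem_product.1 hu).1

theorem kc_nn0 (h : Lump B B' ρ) {R : Finset Ω} {c : ℝ} (hc : ∀ a ∈ R, 0 ≤ B (a, 0) (a, 0) + c)
    {a : Ω} (ha : a ∈ R) (v : Ω × (I → ℤ)) : 0 ≤ kc B c (a, 0) v :=
  kc_nn h.adm (hcS h hc 0) (Finset.mem_product.2 ⟨ha, zero_mem_bx 0⟩)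

theorem hcR (h : Lump B B' ρ) {R : Finset Ω} {c : ℝ} (hc : ∀ a ∈ R, 0 ≤ B (a, 0) (a, 0) + c) :
    ∀ a ∈ R, 0 ≤ B' a a + c := by
  intro a ha
  have h1 := kc_sum h c a a
  have h2 : kc B' c a a = B' a a + c := by unfold kc; rw [if_pos rfl]
  rw [← h2, ← h1]
  exact Finset.sum_nonneg fun l _ => kc_nn0 h hc ha _

theorem row_shift (h : Lump B B' ρ) (c : ℝ) (a a' : Ω) (k : I → ℤ) (M : ℕ) :
    ∑ k' ∈ bx I M, kc B c (a, k) (a', k') =
      ∑ l ∈ ((bx I M).image (fun k' => k' - k)).filter (fun l => l ∈ bx I ρ), kc B c (a, 0) (a', l) := by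
  rw [Finset.sum_filter_of_ne (fun l _ hl => kc_range h hl)]
  rw [Finset.sum_image (fun x _ y _ hxy => sub_left_injective hxy)]
  exact Finset.sum_congr rfl fun k' _ => kc_shift h c a a' k k'

theorem row_le (h : Lump B B' ρ) {R : Finset Ω} {c : ℝ} (hc : ∀ a ∈ R, 0 ≤ B (a, 0) (a, 0) + c)
    {a : Ω} (ha : a ∈ R) (a' : Ω) (k : I → ℤ) (M : ℕ) :
    ∑ k' ∈ bx I M, kc B c (a, k) (a', k') ≤ kc B' c a a' := by
  rw [row_shift h, ← kc_sum h]
  exact Finset.sum_le_sum_of_subset_of_nonneg (fun l hl => (Finset.mem_filter.1 hl).2)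
    fun l _ _ => kc_nn0 h hc ha _

theorem row_eq (h : Lump B B' ρ) (c : ℝ) (a a' : Ω) (k : I → ℤ) (M : ℕ)
    (hk : ∀ l ∈ bx I ρ, k + l ∈ bx I M) :
    ∑ k' ∈ bx I M, kc B c (a, k) (a', k') = kc B' c a a' := by
  rw [row_shift h, ← kc_sum h]
  congr 1
  ext l
  rw [Finset.mem_filter, Finset.mem_image]
  constructor
  · exact fun hl => hl.2
  · exact fun hl => ⟨⟨k + l, hk l hl, add_sub_cancel_left k l⟩, hl⟩

theorem sum_pw_succ (c : ℝ) (R : Finset Ω) (M n : ℕ) (a b : Ω) (k : I → ℤ) :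
    ∑ l ∈ bx I M, pw B c (R ×ˢ bx I M) (n + 1) (a, k) (b, l) =
      ∑ a' ∈ R, ∑ k' ∈ bx I M, kc B c (a, k) (a', k') *
        ∑ l ∈ bx I M, pw B c (R ×ˢ bx I M) n (a', k') (b, l) := by
  show ∑ l ∈ bx I M, (∑ w ∈ R ×ˢ bx I M, kc B c (a, k) w * pw B c (R ×ˢ bx I M) n w (b, l)) = _
  rw [Finset.sum_comm, Finset.sum_product]
  refine Finset.sum_congr rfl fun a' _ => Finset.sum_congr rfl fun k' _ => ?_
  rw [Finset.mul_sum]

theorem up_pw (h : Lump B B' ρ) {R : Finset Ω} {c : ℝ} (hc : ∀ a ∈ R, 0 ≤ B (a, 0) (a, 0) + c)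
    (M n : ℕ) {a : Ω} (ha : a ∈ R) (b : Ω) (k : I → ℤ) :
    ∑ l ∈ bx I M, pw B c (R ×ˢ bx I M) n (a, k) (b, l) ≤ pw B' c R n a b := by
  induction n generalizing a k with
  | zero =>
    show ∑ l ∈ bx I M, (if (a, k) = (b, l) then (1 : ℝ) else 0) ≤ if a = b then 1 else 0
    by_cases h1 : a = b
    · subst h1
      rw [if_pos rfl]
      simp only [Prod.mk.injEq, true_and]
      rw [Finset.sum_ite_eq]
      split_ifs <;> norm_num
    · rw [if_neg h1]
      refine (Finset.sum_eq_zero fun l _ => if_neg fun h2 => h1 ?_).le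
      rw [Prod.mk.injEq] at h2
      exact h2.1
  | succ n ih =>
    rw [sum_pw_succ]
    show _ ≤ ∑ a' ∈ R, kc B' c a a' * pw B' c R n a' b
    refine Finset.sum_le_sum fun a' ha' => ?_
    calc ∑ k' ∈ bx I M, kc B c (a, k) (a', k') *
          ∑ l ∈ bx I M, pw B c (R ×ˢ bx I M) n (a', k') (b, l)
        ≤ ∑ k' ∈ bx I M, kc B c (a, k) (a', k') * pw B' c R n a' b := by
          refine Finset.sum_le_sum fun k' _ => mul_le_mul_of_nonneg_left (ih ha' k') ?_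
          rw [kc_shift h]
          exact kc_nn0 h hc ha _
      _ = (∑ k' ∈ bx I M, kc B c (a, k) (a', k')) * pw B' c R n a' b := by rw [Finset.sum_mul]
      _ ≤ kc B' c a a' * pw B' c R n a' b :=
          mul_le_mul_of_nonneg_right (row_le h hc ha a' k M) (pw_nn h.adm' (hcR h hc) n ha' b)

theorem eq_pw (h : Lump B B' ρ) (R : Finset Ω) (c : ℝ) (M n : ℕ) (a b : Ω) (k : I → ℤ)
    (hn : n * ρ ≤ M) (hk : k ∈ bx I (M - n * ρ)) :
    ∑ l ∈ bx I M, pw B c (R ×ˢ bx I M) n (a, k) (b, l) = pw B' c R n a b := by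
  induction n generalizing a k with
  | zero =>
    rw [zero_mul, Nat.sub_zero] at hk
    show ∑ l ∈ bx I M, (if (a, k) = (b, l) then (1 : ℝ) else 0) = if a = b then 1 else 0
    by_cases h1 : a = b
    · subst h1
      rw [if_pos rfl]
      simp only [Prod.mk.injEq, true_and]
      rw [Finset.sum_ite_eq, if_pos hk]
    · rw [if_neg h1]
      refine Finset.sum_eq_zero fun l _ => if_neg fun h2 => h1 ?_
      rw [Prod.mk.injEq] at h2
      exact h2.1
  | succ n ih =>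
    have hn1 : n * ρ + ρ ≤ M := by rwa [Nat.succ_mul] at hn
    have hn' : n * ρ ≤ M := by omega
    rw [Nat.succ_mul] at hk
    have hk1 : ∀ l ∈ bx I ρ, k + l ∈ bx I (M - n * ρ) := by
      intro l hl
      rw [mem_bx] at hl hk ⊢
      intro i
      have h1 := hl i
      have h2 := hk i
      rw [Pi.add_apply]
      omega
    have hk2 : ∀ l ∈ bx I ρ, k + l ∈ bx I M := by
      intro l hl
      have h0 := hk1 l hl
      rw [mem_bx] at h0 ⊢
      intro i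
      have h1 := h0 i
      omega
    rw [sum_pw_succ]
    show _ = ∑ a' ∈ R, kc B' c a a' * pw B' c R n a' b
    refine Finset.sum_congr rfl fun a' _ => ?_
    rw [← row_eq h c a a' k M hk2, Finset.sum_mul]
    refine Finset.sum_congr rfl fun k' _ => ?_
    by_cases h0 : kc B c (a, k) (a', k') = 0
    · rw [h0, zero_mul, zero_mul]
    · rw [ih a' k' hn']
      rw [kc_shift h] at h0
      have h1 := hk1 _ (kc_range h h0)
      rwa [add_sub_cancel] at h1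

theorem exists_c (B : Ω × (I → ℤ) → Ω × (I → ℤ) → ℝ) (R : Finset Ω) :
    ∃ c : ℝ, ∀ a ∈ R, 0 ≤ B (a, 0) (a, 0) + c := by
  refine ⟨∑ a ∈ R, |B (a, 0) (a, 0)|, fun a ha => ?_⟩
  have h1 := Finset.single_le_sum (f := fun a => |B (a, 0) (a, 0)|) (fun _ _ => abs_nonneg _) ha
  have h2 := neg_abs_le (B (a, 0) (a, 0))
  linarith

theorem hasSum_box (c : ℝ) {R : Finset Ω} (M : ℕ) {a b : Ω} (ha : a ∈ R)
    (hb : b ∈ R) {k : I → ℤ} (hk : k ∈ bx I M) :
    HasSum (fun n : ℕ => ((n.factorial : ℝ)⁻¹) * ∑ l ∈ bx I M, pw B c (R ×ˢ bx I M) n (a, k) (b, l))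
      (Real.exp c * ∑ l ∈ bx I M, EE B (R ×ˢ bx I M) (a, k) (b, l)) := by
  have h1 := hasSum_sum (s := bx I M) (f := fun (l : I → ℤ) (n : ℕ) =>
    ((n.factorial : ℝ)⁻¹) * pw B c (R ×ˢ bx I M) n (a, k) (b, l)) fun l hl =>
    EE_hasSum B c (R ×ˢ bx I M) (Finset.mem_product.2 ⟨ha, hk⟩) (Finset.mem_product.2 ⟨hb, hl⟩)
  simpa only [Finset.mul_sum] using h1

/-- **Task 2a.** Lumping, upper bound. -/
theorem task_lump_up {B : Ω × (I → ℤ) → Ω × (I → ℤ) → ℝ} {B' : Ω → Ω → ℝ} {ρ : ℕ}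
    (h : Lump B B' ρ) (R : Finset Ω) (M : ℕ) (a b : Ω) (k : I → ℤ) :
    ∑ l ∈ bx I M, EE B (R ×ˢ bx I M) (a, k) (b, l) ≤ EE B' R a b := by
  by_cases hab : a ∈ R ∧ b ∈ R ∧ k ∈ bx I M
  · obtain ⟨ha, hb, hk⟩ := hab
    obtain ⟨c, hc⟩ := exists_c B R
    have h1 := hasSum_box (B := B) c M ha hb hk
    have h2 := EE_hasSum B' c R ha hb
    have h3 := hasSum_le (fun n => mul_le_mul_of_nonneg_left (up_pw h hc M n ha b k)
      (inv_nonneg.2 (Nat.cast_nonneg n.factorial))) h1 h2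
    exact le_of_mul_le_mul_left h3 (Real.exp_pos c)
  · have h1 : ∑ l ∈ bx I M, EE B (R ×ˢ bx I M) (a, k) (b, l) = 0 := by
      refine Finset.sum_eq_zero fun l hl => ?_
      by_cases ha : (a, k) ∈ R ×ˢ bx I M
      · refine EE_zero_right fun h3 => hab ?_
        rw [Finset.mem_product] at ha h3
        exact ⟨ha.1, h3.1, ha.2⟩
      · exact EE_zero_left ha
    rw [h1]
    exact EE_nonneg h.adm' _ _ _

/-- **Task 2b.** Lumping, lower bound. -/
theorem task_lump_low {B : Ω × (I → ℤ) → Ω × (I → ℤ) → ℝ} {B' : Ω → Ω → ℝ} {ρ : ℕ}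
    (h : Lump B B' ρ) (R : Finset Ω) (a b : Ω) (δ : ℝ) (hδ : 0 < δ) :
    ∃ M₀ : ℕ, ∀ M ≥ M₀, EE B' R a b - δ ≤ ∑ l ∈ bx I M, EE B (R ×ˢ bx I M) (a, 0) (b, l) := by
  by_cases hab : a ∈ R ∧ b ∈ R
  · obtain ⟨ha, hb⟩ := hab
    obtain ⟨c, hc⟩ := exists_c B R
    have h2 := EE_hasSum B' c R ha hb
    have h4 := h2.tendsto_sum_nat
    have h5 : 0 < Real.exp c * δ := mul_pos (Real.exp_pos c) hδ
    obtain ⟨N, hN⟩ := (h4.eventually (lt_mem_nhds (show Real.exp c * EE B' R a b - Real.exp c * δ <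
      Real.exp c * EE B' R a b by linarith))).exists
    refine ⟨N * ρ, fun M hM => ?_⟩
    have h1 := hasSum_box (B := B) c M ha hb (zero_mem_bx M)
    have h6 : ∑ n ∈ Finset.range N, ((n.factorial : ℝ)⁻¹) * pw B' c R n a b ≤
        Real.exp c * ∑ l ∈ bx I M, EE B (R ×ˢ bx I M) (a, 0) (b, l) := by
      have h7 : ∑ n ∈ Finset.range N, ((n.factorial : ℝ)⁻¹) * pw B' c R n a b =
          ∑ n ∈ Finset.range N, ((n.factorial : ℝ)⁻¹) *
            ∑ l ∈ bx I M, pw B c (R ×ˢ bx I M) n (a, 0) (b, l) := by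
        refine Finset.sum_congr rfl fun n hn => ?_
        rw [eq_pw h R c M n a b 0 _ (zero_mem_bx _)]
        exact (Nat.mul_le_mul_right ρ (Finset.mem_range.1 hn).le).trans hM
      rw [h7]
      refine sum_le_hasSum _ (fun n _ => ?_) h1
      refine mul_nonneg (inv_nonneg.2 (Nat.cast_nonneg _)) (Finset.sum_nonneg fun l _ => ?_)
      exact pw_nn h.adm (hcS h hc M) n (Finset.mem_product.2 ⟨ha, zero_mem_bx M⟩) _
    have h8 : Real.exp c * (EE B' R a b - δ) ≤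
        Real.exp c * ∑ l ∈ bx I M, EE B (R ×ˢ bx I M) (a, 0) (b, l) := by
      rw [mul_sub]
      exact hN.le.trans h6
    exact le_of_mul_le_mul_left h8 (Real.exp_pos c)
  · refine ⟨0, fun M _ => ?_⟩
    have h1 : EE B' R a b = 0 := by
      unfold EE
      rw [dif_neg hab]
    rw [h1]
    have h2 : 0 ≤ ∑ l ∈ bx I M, EE B (R ×ˢ bx I M) (a, 0) (b, l) :=
      Finset.sum_nonneg fun l _ => EE_nonneg h.adm _ _ _
    linarith

end lump

end Pool.Agent.H788.CT
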